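import Mathlib

/-! Chevalley's theorem for complex points: the image of an affine algebraic set under a
polynomial map contains a nonempty Zariski open subset of its Zariski closure. -/

set_option autoImplicit false

namespace H462SN

open MvPolynomial

lemma constr_generic {R : Type*} [CommRing R] {T : Set (PrimeSpectrum R)}
    (hT : Topology.IsConstructible T) (p : PrimeSpectrum R) (hp : p ∈ T) :
    ∃ f : R, f ∉ p.asIdeal ∧
      ∀ q : PrimeSpectrum R, p.asIdeal ≤ q.asIdeal → f ∉ q.asIdeal → q ∈ T := by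
  obtain ⟨S, rfl⟩ := PrimeSpectrum.exists_constructibleSetData_iff.mpr hT
  rw [PrimeSpectrum.ConstructibleSetData.toSet] at hp
  simp only [Set.mem_iUnion] at hp
  obtain ⟨C, hC, hpC⟩ := hp
  rw [PrimeSpectrum.BasicConstructibleSetData.toSet] at hpC
  refine ⟨C.f, ?_, ?_⟩
  · intro h
    exact hpC.2 (by simpa [PrimeSpectrum.mem_zeroLocus] using h)
  · intro q hq hfq
    rw [PrimeSpectrum.ConstructibleSetData.toSet]
    simp only [Set.mem_iUnion]
    refine ⟨C, hC, ?_⟩
    rw [PrimeSpectrum.BasicConstructibleSetData.toSet]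
    refine ⟨?_, ?_⟩
    · have h1 := hpC.1
      rw [PrimeSpectrum.mem_zeroLocus] at h1 ⊢
      exact h1.trans hq
    · intro h
      exact hfq (by simpa [PrimeSpectrum.mem_zeroLocus] using h)

theorem chev {σ τ : Type} [Finite σ] [Finite τ] (I : Ideal (MvPolynomial σ ℂ))
    (φ : τ → MvPolynomial σ ℂ) (hI : (zeroLocus ℂ I).Nonempty) :
    ∃ F : MvPolynomial τ ℂ,
      (∃ x ∈ zeroLocus ℂ I, eval (fun t => eval x (φ t)) F ≠ 0) ∧
      ∀ y : τ → ℂ,
        (∀ f : MvPolynomial τ ℂ, (∀ x ∈ zeroLocus ℂ I, eval (fun t => eval x (φ t)) f = 0) →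
          eval y f = 0) →
        eval y F ≠ 0 → ∃ x ∈ zeroLocus ℂ I, ∀ t, eval x (φ t) = y t := by
  classical
  set J : Ideal (MvPolynomial σ ℂ) := vanishingIdeal ℂ (zeroLocus ℂ I) with hJ
  let ψ : MvPolynomial τ ℂ →ₐ[ℂ] MvPolynomial σ ℂ := aeval φ
  have hψ : ∀ (x : σ → ℂ) (f : MvPolynomial τ ℂ),
      eval x (ψ f) = eval (fun t => eval x (φ t)) f := by
    intro x f
    induction f using MvPolynomial.induction_on with
    | C a => simp [ψ]
    | add p q hp hq => simp only [map_add, hp, hq]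
    | mul_X p n hp => simp only [map_mul, hp]; simp [ψ]
  set K : Ideal (MvPolynomial τ ℂ) := J.comap ψ.toRingHom with hK
  have hKmem : ∀ f, f ∈ K ↔ ∀ x ∈ zeroLocus ℂ I, eval (fun t => eval x (φ t)) f = 0 := by
    intro f
    rw [hK, Ideal.mem_comap, hJ, mem_vanishingIdeal_iff]
    constructor
    · intro h x hx
      have := h x hx
      rw [← hψ]
      simpa [aeval_eq_eval] using this
    · intro h x hx
      have := h x hx
      rw [← hψ] at this
      simpa [aeval_eq_eval] using this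
  have hKtop : K ≠ ⊤ := by
    obtain ⟨x, hx⟩ := hI
    intro h
    have h1 : (1 : MvPolynomial τ ℂ) ∈ K := by rw [h]; trivial
    have := (hKmem 1).1 h1 x hx
    simp at this
  obtain ⟨⟨P, hP⟩⟩ := Ideal.nonempty_minimalPrimes hKtop
  have hPprime : P.IsPrime := hP.1.1
  have hKP : K ≤ P := hP.1.2
  -- lift
  obtain ⟨P', hP'prime, hJP', hP'comap⟩ :=
    Ideal.exists_comap_eq_of_mem_minimalPrimes (I := J) ψ.toRingHom P hP
  have hft : ψ.toRingHom.FiniteType := by
    apply RingHom.FiniteType.of_comp_finiteType (f := algebraMap ℂ (MvPolynomial τ ℂ))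
    have : ψ.toRingHom.comp (algebraMap ℂ (MvPolynomial τ ℂ)) =
        algebraMap ℂ (MvPolynomial σ ℂ) := by
      ext a
      simp
    rw [this]
    rw [RingHom.finiteType_algebraMap]
    infer_instance
  have hfp : ψ.toRingHom.FinitePresentation := by
    exact RingHom.FinitePresentation.of_finiteType.1 hft
  have hcJ : Topology.IsConstructible (PrimeSpectrum.zeroLocus (J : Set (MvPolynomial σ ℂ))) := by
    rw [← Topology.isConstructible_compl]
    exact IsRetrocompact.isConstructible (PrimeSpectrum.isClosed_zeroLocus _).isOpen_compl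
      (PrimeSpectrum.isRetrocompact_zeroLocus_compl_of_fg (IsNoetherian.noetherian J))
  have hT := PrimeSpectrum.isConstructible_comap_image hfp hcJ
  obtain ⟨f, hfP, hf⟩ := constr_generic hT ⟨P, hPprime⟩
    ⟨⟨P', hP'prime⟩, hJP', by ext1; exact hP'comap⟩
  -- other minimal primes
  have hfin : (K.minimalPrimes).Finite := K.finite_minimalPrimes_of_isNoetherianRing
  have hex : ∀ Q ∈ K.minimalPrimes, Q ≠ P → ∃ a, a ∈ Q ∧ a ∉ P := by
    intro Q hQ hQP
    by_contra hcon
    push Not at hcon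
    have hle : Q ≤ P := fun a ha => hcon a ha
    exact hQP (le_antisymm hle (hP.2 hQ.1 hle))
  choose! a ha using hex
  let A : MvPolynomial τ ℂ := ∏ Q ∈ hfin.toFinset.filter (· ≠ P), a Q
  have hA : A ∉ P := by
    intro hmem
    rw [Ideal.IsPrime.prod_mem_iff] at hmem
    obtain ⟨Q, hQ, hQ2⟩ := hmem
    rw [Finset.mem_filter, Set.Finite.mem_toFinset] at hQ
    exact (ha Q hQ.1 hQ.2).2 hQ2
  have hA2 : ∀ Q ∈ K.minimalPrimes, Q ≠ P → A ∈ Q := by
    intro Q hQ hQP
    have : Q.IsPrime := hQ.1.1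
    rw [Ideal.IsPrime.prod_mem_iff]
    exact ⟨Q, by rw [Finset.mem_filter, Set.Finite.mem_toFinset]; exact ⟨hQ, hQP⟩,
      (ha Q hQ hQP).1⟩
  refine ⟨f * A, ?_, ?_⟩
  · by_contra hcon
    push Not at hcon
    have h1 : f * A ∈ K := (hKmem _).2 hcon
    rcases hPprime.mem_or_mem (hKP h1) with h | h
    · exact hfP h
    · exact hA h
  · intro y hy hyF
    set m : Ideal (MvPolynomial τ ℂ) := vanishingIdeal ℂ {y} with hm
    have hmmax : m.IsMaximal := isMaximal_iff_eq_vanishingIdeal_singleton.2 ⟨y, rfl⟩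
    have hmmem : ∀ g, g ∈ m ↔ eval y g = 0 := by
      intro g
      rw [hm, mem_vanishingIdeal_singleton_iff, aeval_eq_eval]
    have hKm : K ≤ m := by
      intro g hg
      rw [hmmem]
      exact hy g ((hKmem g).1 hg)
    have hmprime : m.IsPrime := hmmax.isPrime
    obtain ⟨Q, hQ, hQm⟩ := Ideal.exists_minimalPrimes_le hKm
    have hfA : f ∉ m ∧ A ∉ m := by
      rw [hmmem, hmmem]
      rw [map_mul] at hyF
      exact ⟨left_ne_zero_of_mul hyF, right_ne_zero_of_mul hyF⟩
    have hQP : Q = P := by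
      by_contra hne
      exact hfA.2 (hQm (hA2 Q hQ hne))
    subst hQP
    obtain ⟨⟨R, hR⟩, hRJ, hRm⟩ := hf ⟨m, hmprime⟩ hQm hfA.1
    have hRm' : R.comap ψ.toRingHom = m := by
      have := congrArg PrimeSpectrum.asIdeal hRm
      exact this
    obtain ⟨M, hM, hRM⟩ := R.exists_le_maximal hR.ne_top
    obtain ⟨x, hx⟩ := isMaximal_iff_eq_vanishingIdeal_singleton.1 hM
    have hMmem : ∀ g, g ∈ M ↔ eval x g = 0 := by
      intro g
      rw [hx, mem_vanishingIdeal_singleton_iff, aeval_eq_eval]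
    have hxI : x ∈ zeroLocus ℂ I := by
      rw [mem_zeroLocus_iff]
      intro p hp
      have h1 : p ∈ J := le_vanishingIdeal_zeroLocus I hp
      have h2 : p ∈ M := hRM (hRJ h1)
      rw [aeval_eq_eval]
      exact (hMmem p).1 h2
    refine ⟨x, hxI, fun t => ?_⟩
    have h1 : (X t - C (y t) : MvPolynomial τ ℂ) ∈ m := by
      rw [hmmem]; simp
    rw [← hRm', Ideal.mem_comap] at h1
    have h2 := (hMmem _).1 (hRM h1)
    have h3 : eval x (ψ (X t - C (y t))) = 0 := h2
    rw [hψ] at h3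
    simp at h3
    exact sub_eq_zero.1 h3

end H462SN
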