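import Mathlib
import Pool.Agent.H462SN.Chev

/-! Polynomial functions and algebraic sets. -/

set_option autoImplicit false

namespace H462SN

open MvPolynomial

variable {σ τ : Type}

/-- polynomial functions on `σ → ℂ` -/
def PF (f : (σ → ℂ) → ℂ) : Prop := ∃ p : MvPolynomial σ ℂ, ∀ x, eval x p = f x

lemma PF.const (c : ℂ) : PF (fun _ : σ → ℂ => c) := ⟨C c, fun x => by simp⟩

lemma PF.coord (s : σ) : PF (fun x : σ → ℂ => x s) := ⟨X s, fun x => by simp⟩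

lemma PF.add {f g : (σ → ℂ) → ℂ} (hf : PF f) (hg : PF g) : PF (fun x => f x + g x) := by
  obtain ⟨p, hp⟩ := hf
  obtain ⟨q, hq⟩ := hg
  exact ⟨p + q, fun x => by simp [hp, hq]⟩

lemma PF.sub {f g : (σ → ℂ) → ℂ} (hf : PF f) (hg : PF g) : PF (fun x => f x - g x) := by
  obtain ⟨p, hp⟩ := hf
  obtain ⟨q, hq⟩ := hg
  exact ⟨p - q, fun x => by simp [hp, hq]⟩

lemma PF.mul {f g : (σ → ℂ) → ℂ} (hf : PF f) (hg : PF g) : PF (fun x => f x * g x) := by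
  obtain ⟨p, hp⟩ := hf
  obtain ⟨q, hq⟩ := hg
  exact ⟨p * q, fun x => by simp [hp, hq]⟩

lemma PF.pow {f : (σ → ℂ) → ℂ} (hf : PF f) (n : ℕ) : PF (fun x => f x ^ n) := by
  obtain ⟨p, hp⟩ := hf
  exact ⟨p ^ n, fun x => by simp [hp]⟩

lemma PF.sum {ι : Type*} (s : Finset ι) {f : ι → (σ → ℂ) → ℂ} (hf : ∀ i, PF (f i)) :
    PF (fun x => ∑ i ∈ s, f i x) := by
  choose p hp using hf
  exact ⟨∑ i ∈ s, p i, fun x => by simp [map_sum, hp]⟩

lemma PF.prod {ι : Type*} (s : Finset ι) {f : ι → (σ → ℂ) → ℂ} (hf : ∀ i, PF (f i)) :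
    PF (fun x => ∏ i ∈ s, f i x) := by
  choose p hp using hf
  exact ⟨∏ i ∈ s, p i, fun x => by simp [map_prod, hp]⟩

lemma PF.congr {f g : (σ → ℂ) → ℂ} (hf : PF f) (h : ∀ x, f x = g x) : PF g := by
  obtain ⟨p, hp⟩ := hf
  exact ⟨p, fun x => by rw [hp, h]⟩

lemma PF.comp {f : (τ → ℂ) → ℂ} (hf : PF f) {Φ : (σ → ℂ) → (τ → ℂ)}
    (hΦ : ∀ t, PF (fun x => Φ x t)) : PF (fun x => f (Φ x)) := by
  obtain ⟨p, hp⟩ := hf
  choose q hq using hΦ
  refine ⟨aeval q p, fun x => ?_⟩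
  show eval x (aeval q p) = f (Φ x)
  rw [← hp]
  have h : Φ x = fun t => eval x (q t) := by
    funext t
    rw [hq]
  rw [h]
  clear hp
  induction p using MvPolynomial.induction_on with
  | C a => simp
  | add p q hp hq => simp only [map_add, hp, hq]
  | mul_X p n hp => simp only [map_mul, hp]; simp

lemma PF.evalp {ι : Type} (p : MvPolynomial ι ℂ) {Φ : (σ → ℂ) → (ι → ℂ)}
    (hΦ : ∀ t, PF (fun x => Φ x t)) : PF (fun x => eval (Φ x) p) :=
  PF.comp (f := fun y => eval y p) ⟨p, fun _ => rfl⟩ hΦ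

lemma PF.det {k : ℕ} {M : (σ → ℂ) → Matrix (Fin k) (Fin k) ℂ} (hM : ∀ i j, PF (fun x => M x i j)) :
    PF (fun x => (M x).det) := by
  have h : ∀ x, (M x).det = ∑ s : Equiv.Perm (Fin k),
      ((Equiv.Perm.sign s : ℤ) : ℂ) * ∏ i, M x (s i) i := by
    intro x
    rw [Matrix.det_apply']
  refine PF.congr ?_ (fun x => (h x).symm)
  exact PF.sum _ fun s => (PF.const _).mul (PF.prod _ fun i => hM _ _)

lemma PF.mmul {k : ℕ} {M M' : (σ → ℂ) → Matrix (Fin k) (Fin k) ℂ}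
    (hM : ∀ i j, PF (fun x => M x i j)) (hM' : ∀ i j, PF (fun x => M' x i j)) (i j : Fin k) :
    PF (fun x => (M x * M' x) i j) := by
  refine PF.congr (PF.sum Finset.univ fun l => (hM i l).mul (hM' l j)) fun x => ?_
  rw [Matrix.mul_apply]

lemma PF.continuous {f : (σ → ℂ) → ℂ} (hf : PF f) : Continuous f := by
  obtain ⟨p, hp⟩ := hf
  have : f = fun x => eval x p := by funext x; rw [hp]
  rw [this]
  exact MvPolynomial.continuous_eval p

/-- algebraic sets -/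
def IsAlg (S : Set (σ → ℂ)) : Prop := ∃ T : Set (MvPolynomial σ ℂ), ∀ x, x ∈ S ↔ ∀ p ∈ T, eval x p = 0

lemma IsAlg.of_PF {S : Set (σ → ℂ)} {ι : Type*} (f : ι → (σ → ℂ) → ℂ) (hf : ∀ i, PF (f i))
    (h : ∀ x, x ∈ S ↔ ∀ i, f i x = 0) : IsAlg S := by
  choose p hp using hf
  refine ⟨Set.range p, fun x => ?_⟩
  rw [h]
  constructor
  · rintro h _ ⟨i, rfl⟩
    rw [hp]
    exact h i
  · intro h i
    rw [← hp]
    exact h _ ⟨i, rfl⟩

lemma IsAlg.inter {S S' : Set (σ → ℂ)} (h : IsAlg S) (h' : IsAlg S') : IsAlg (S ∩ S') := by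
  obtain ⟨T, hT⟩ := h
  obtain ⟨T', hT'⟩ := h'
  refine ⟨T ∪ T', fun x => ?_⟩
  rw [Set.mem_inter_iff, hT, hT']
  constructor
  · rintro ⟨h1, h2⟩ p (hp | hp)
    · exact h1 p hp
    · exact h2 p hp
  · intro h
    exact ⟨fun p hp => h p (Or.inl hp), fun p hp => h p (Or.inr hp)⟩

lemma IsAlg.isClosed {S : Set (σ → ℂ)} (h : IsAlg S) : IsClosed S := by
  obtain ⟨T, hT⟩ := h
  have : S = ⋂ p ∈ T, {x | eval x p = 0} := by
    ext x
    rw [hT]
    simp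
  rw [this]
  exact isClosed_biInter fun p _ => isClosed_eq (MvPolynomial.continuous_eval p) continuous_const

theorem chevPF [Finite σ] [Finite τ] {S : Set (σ → ℂ)} (hS : IsAlg S) (hne : S.Nonempty)
    (Φ : (σ → ℂ) → (τ → ℂ)) (hΦ : ∀ t, PF (fun x => Φ x t)) :
    ∃ F : (τ → ℂ) → ℂ, PF F ∧ (∃ x ∈ S, F (Φ x) ≠ 0) ∧
      ∀ y : τ → ℂ, (∀ f, PF f → (∀ x ∈ S, f (Φ x) = 0) → f y = 0) → F y ≠ 0 → ∃ x ∈ S, Φ x = y := by
  obtain ⟨T, hT⟩ := hS
  choose φ hφ using hΦ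
  have hZ : zeroLocus ℂ (Ideal.span T) = S := by
    rw [zeroLocus_span]
    ext x
    rw [hT]
    constructor
    · intro h p hp
      have := h p hp
      rwa [aeval_eq_eval] at this
    · intro h p hp
      rw [aeval_eq_eval]
      exact h p hp
  have hΦ' : ∀ x, Φ x = fun t => eval x (φ t) := by
    intro x
    funext t
    rw [hφ]
  obtain ⟨F, ⟨x, hx, hxF⟩, hF⟩ := chev (Ideal.span T) φ (by rw [hZ]; exact hne)
  rw [hZ] at hx hF
  refine ⟨fun y => eval y F, ⟨F, fun _ => rfl⟩, ⟨x, hx, ?_⟩, ?_⟩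
  · rw [hΦ']; exact hxF
  · intro y hy hyF
    obtain ⟨x', hx', h'⟩ := hF y (fun f hf => hy (fun y => eval y f) ⟨f, fun _ => rfl⟩
      (fun x hx => by rw [hΦ']; exact hf x hx)) hyF
    refine ⟨x', hx', ?_⟩
    rw [hΦ']
    funext t
    exact h' t

end H462SN
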