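import Mathlib

/-! `GL_n(ℂ) = K · B` with `K` compact and `B` upper triangular. -/

set_option autoImplicit false

namespace H462SN

open Set Matrix InnerProductSpace

/-- invertible matrices with entries of the matrix and of its inverse bounded by one -/
def KK (n : ℕ) : Set (GL (Fin n) ℂ) :=
  {x | (∀ i j, ‖x i j‖ ≤ 1) ∧ ∀ i j, ‖(x⁻¹ : GL (Fin n) ℂ) i j‖ ≤ 1}

lemma isCompact_KK (n : ℕ) : IsCompact (KK n) := by
  have hB0 : IsCompact ({A : Fin n → Fin n → ℂ | ∀ i j, ‖A i j‖ ≤ 1}) := by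
    have h : IsCompact (Set.pi univ (fun _ : Fin n => Set.pi univ
        (fun _ : Fin n => Metric.closedBall (0 : ℂ) 1))) :=
      isCompact_univ_pi fun _ => isCompact_univ_pi fun _ => isCompact_closedBall _ _
    have he : {A : Fin n → Fin n → ℂ | ∀ i j, ‖A i j‖ ≤ 1} = Set.pi univ (fun _ : Fin n =>
        Set.pi univ (fun _ : Fin n => Metric.closedBall (0 : ℂ) 1)) := by
      ext A
      simp [Set.mem_pi]
    rw [he]
    exact h
  have hB : IsCompact ({A : Matrix (Fin n) (Fin n) ℂ | ∀ i j, ‖A i j‖ ≤ 1}) := hB0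
  have hP : IsCompact ({A : Matrix (Fin n) (Fin n) ℂ | ∀ i j, ‖A i j‖ ≤ 1} ×ˢ
      (MulOpposite.op '' {A : Matrix (Fin n) (Fin n) ℂ | ∀ i j, ‖A i j‖ ≤ 1})) :=
    hB.prod (hB.image MulOpposite.continuous_op)
  have h := (Units.isClosedEmbedding_embedProduct (α := Matrix (Fin n) (Fin n) ℂ)).isCompact_preimage hP
  convert h using 1
  ext x
  simp only [KK, mem_ofPred_eq, mem_preimage, mem_prod, mem_image, Units.embedProduct_apply]
  constructor
  · rintro ⟨h1, h2⟩
    exact ⟨h1, _, h2, rfl⟩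
  · rintro ⟨h1, A, h2, h3⟩
    refine ⟨h1, ?_⟩
    have : A = ((x⁻¹ : GL (Fin n) ℂ) : Matrix (Fin n) (Fin n) ℂ) := MulOpposite.op_injective h3
    rw [← this]
    exact h2

lemma unitary_entry {n : ℕ} {k : Matrix (Fin n) (Fin n) ℂ} (hk : k * kᴴ = 1) (i j : Fin n) :
    ‖k i j‖ ≤ 1 := by
  have h := congrFun (congrFun hk i) i
  rw [Matrix.mul_apply, Matrix.one_apply_eq] at h
  have h2 : ∑ l, ‖k i l‖ ^ 2 = 1 := by
    have h3 : ∑ l, k i l * kᴴ l i = ((∑ l, ‖k i l‖ ^ 2 : ℝ) : ℂ) := by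
      push_cast
      refine Finset.sum_congr rfl fun l _ => ?_
      rw [Matrix.conjTranspose_apply]
      exact Complex.mul_conj' _
    rw [h3] at h
    exact_mod_cast h
  have h3 : ‖k i j‖ ^ 2 ≤ 1 := by
    rw [← h2]
    exact Finset.single_le_sum (f := fun l => ‖k i l‖ ^ 2) (fun l _ => by positivity)
      (Finset.mem_univ j)
  nlinarith [norm_nonneg (k i j)]

theorem qr (n : ℕ) (x : GL (Fin n) ℂ) :
    ∃ b : GL (Fin n) ℂ, (b : Matrix (Fin n) (Fin n) ℂ).BlockTriangular id ∧ x * b ∈ KK n := by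
  classical
  let f : Fin n → EuclideanSpace ℂ (Fin n) := fun j => WithLp.toLp 2 fun i => x i j
  have hfin : Module.finrank ℂ (EuclideanSpace ℂ (Fin n)) = Fintype.card (Fin n) := by simp
  let e := gramSchmidtOrthonormalBasis hfin f
  let k : Matrix (Fin n) (Fin n) ℂ := Matrix.of fun i j => e j i
  let r : Matrix (Fin n) (Fin n) ℂ := Matrix.of fun i j => inner ℂ (e i) (f j)
  have hxkr : (x : Matrix (Fin n) (Fin n) ℂ) = k * r := by
    ext i j
    rw [Matrix.mul_apply]
    have h := e.sum_repr' (f j)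
    have h2 : (f j) i = x i j := rfl
    rw [← h2, ← h]
    simp only [k, r, Matrix.of_apply]
    have h3 : ∀ (s : Finset (Fin n)) (c : Fin n → ℂ) (v : Fin n → EuclideanSpace ℂ (Fin n)),
        (∑ l ∈ s, c l • v l) i = ∑ l ∈ s, c l * v l i := by
      intro s c v
      simp
    rw [h3]
    refine Finset.sum_congr rfl fun l _ => ?_
    rw [mul_comm]
  have hk1 : kᴴ * k = 1 := by
    ext i j
    rw [Matrix.mul_apply]
    have h := orthonormal_iff_ite.1 e.orthonormal i j
    rw [Matrix.one_apply, ← h]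
    rw [PiLp.inner_apply]
    refine Finset.sum_congr rfl fun l _ => ?_
    simp only [k, Matrix.conjTranspose_apply, Matrix.of_apply]
    simp [mul_comm]
  have hk2 : k * kᴴ = 1 := mul_eq_one_comm.1 hk1
  have hr : r.BlockTriangular id := by
    intro i j hij
    simp only [r, Matrix.of_apply]
    exact gramSchmidtOrthonormalBasis_inv_triangular hfin f hij
  let ku : GL (Fin n) ℂ := ⟨k, kᴴ, hk2, hk1⟩
  let ru : GL (Fin n) ℂ := ku⁻¹ * x
  have hru : (ru : Matrix (Fin n) (Fin n) ℂ) = r := by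
    show kᴴ * (x : Matrix (Fin n) (Fin n) ℂ) = r
    rw [hxkr, ← Matrix.mul_assoc, hk1, Matrix.one_mul]
  refine ⟨ru⁻¹, ?_, ?_⟩
  · have : Invertible r := ⟨(ru⁻¹ : GL (Fin n) ℂ), by rw [← hru]; simp, by rw [← hru]; simp⟩
    have h := Matrix.blockTriangular_inv_of_blockTriangular hr
    rw [← hru, ← Matrix.coe_units_inv] at h
    exact h
  · have : x * ru⁻¹ = ku := by
      simp [ru]
    rw [this]
    refine ⟨fun i j => unitary_entry hk2 i j, fun i j => ?_⟩
    show ‖kᴴ i j‖ ≤ 1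
    exact unitary_entry (k := kᴴ) (by rw [Matrix.conjTranspose_conjTranspose]; exact hk1) i j

end H462SN
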