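import Mathlib

/-! A closed double coset, and the resulting Iwasawa type decomposition (topological part). -/

set_option autoImplicit false

namespace H462SN

open Set

theorem exists_closed_coset {X : Type} [Group X] [TopologicalSpace X] [IsTopologicalGroup X]
    [T2Space X] [LocallyCompactSpace X] (H B : Subgroup X) (K : Set X) (hK : IsCompact K)
    (hKB : ∀ x, ∃ b ∈ B, x * b ∈ K)
    (E : Type) [TopologicalSpace E] [SigmaCompactSpace E] (f g : E → X) (hf : Continuous f)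
    (hg : Continuous g) (hfH : ∀ e, f e ∈ H) (hgB : ∀ e, g e ∈ B)
    (hsurj : ∀ h ∈ H, ∀ b ∈ B, ∃ e, f e = h ∧ g e = b)
    (hloc : ∀ u, IsLocallyClosed {x : X | ∃ h ∈ H, ∃ b ∈ B, x = h * u * b}) :
    ∃ (u : X) (C : Set X), IsCompact C ∧
      ∀ h ∈ H, ∃ c ∈ C, c ∈ H ∧ ∃ b ∈ B, h * u = c * u * b := by
  classical
  -- minimal closed invariant set
  let Inv : Set X → Prop := fun Z => ∀ h ∈ H, ∀ b ∈ B, ∀ x ∈ Z, h * x * b ∈ Z
  let F : Set (Set X) := {Z | IsClosed Z ∧ Z.Nonempty ∧ Inv Z}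
  have hmeet : ∀ Z ∈ F, (Z ∩ K).Nonempty := by
    rintro Z ⟨_, ⟨x, hx⟩, hinv⟩
    obtain ⟨b, hb, hxb⟩ := hKB x
    have := hinv 1 H.one_mem b hb x hx
    rw [one_mul] at this
    exact ⟨_, this, hxb⟩
  obtain ⟨M, hM⟩ : ∃ M, Minimal (· ∈ F) M := by
    apply zorn_superset
    intro c hcF hc
    rcases c.eq_empty_or_nonempty with rfl | hcne
    · exact ⟨univ, ⟨isClosed_univ, ⟨1, trivial⟩, fun _ _ _ _ _ _ => trivial⟩, by simp⟩
    · refine ⟨⋂₀ c, ⟨isClosed_sInter fun Z hZ => (hcF hZ).1, ?_, ?_⟩, fun Z hZ => sInter_subset_of_mem hZ⟩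
      · have : (⋂ Z : c, (Z : Set X) ∩ K).Nonempty := by
          have : Nonempty c := hcne.to_subtype
          apply IsCompact.nonempty_iInter_of_directed_nonempty_isCompact_isClosed
          · intro Z Z'
            rcases hc.total Z.2 Z'.2 with h | h
            · exact ⟨Z, Subset.rfl, inter_subset_inter_left _ h⟩
            · exact ⟨Z', inter_subset_inter_left _ h, Subset.rfl⟩
          · intro Z
            exact hmeet _ (hcF Z.2)
          · intro Z
            exact hK.inter_left (hcF Z.2).1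
          · intro Z
            exact (hcF Z.2).1.inter hK.isClosed
        obtain ⟨x, hx⟩ := this
        rw [mem_iInter] at hx
        exact ⟨x, fun Z hZ => (hx ⟨Z, hZ⟩).1⟩
      · intro h hh b hb x hx Z hZ
        exact (hcF hZ).2.2 h hh b hb x (hx Z hZ)
  obtain ⟨u, hu⟩ := hM.1.2.1
  have hMcl : IsClosed M := hM.1.1
  have hMinv : Inv M := hM.1.2.2
  set O : Set X := {x : X | ∃ h ∈ H, ∃ b ∈ B, x = h * u * b} with hO
  have hOM : O ⊆ M := by
    rintro x ⟨h, hh, b, hb, rfl⟩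
    exact hMinv h hh b hb u hu
  have huO : u ∈ O := ⟨1, H.one_mem, 1, B.one_mem, by simp⟩
  have hOinv : ∀ h ∈ H, ∀ b ∈ B, ∀ x, h * x * b ∈ O ↔ x ∈ O := by
    intro h hh b hb x
    constructor
    · rintro ⟨h', hh', b', hb', he⟩
      refine ⟨h⁻¹ * h', H.mul_mem (H.inv_mem hh) hh', b' * b⁻¹, B.mul_mem hb' (B.inv_mem hb), ?_⟩
      have : x = h⁻¹ * (h * x * b) * b⁻¹ := by group
      rw [this, he]
      group
    · rintro ⟨h', hh', b', hb', rfl⟩
      exact ⟨h * h', H.mul_mem hh hh', b' * b, B.mul_mem hb' hb, by group⟩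
  have hcont : ∀ h b : X, Continuous fun x : X => h * x * b := fun h b => by fun_prop
  have hclinv : Inv (closure O) := by
    intro h hh b hb x hx
    have := map_mem_closure (hcont h b) hx (t := O) (fun y hy => (hOinv h hh b hb y).2 hy)
    exact this
  have hclO : closure O = M := by
    apply le_antisymm
    · exact closure_minimal hOM hMcl
    · exact hM.2 ⟨isClosed_closure, ⟨u, subset_closure huO⟩, hclinv⟩
        (closure_minimal hOM hMcl)
  have hOcl : O = M := by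
    by_contra hne
    have hcl2 : IsClosed (closure O \ O) := by
      have hl := hloc u
      rw [← hO] at hl
      obtain ⟨U, Z, hU, hZ, hUZ⟩ := hl
      have hcZ : closure O ⊆ Z := closure_minimal (by rw [hUZ]; exact inter_subset_right) hZ
      have : closure O \ O = closure O ∩ Uᶜ := by
        ext x
        constructor
        · rintro ⟨h1, h2⟩
          refine ⟨h1, fun h3 => h2 ?_⟩
          rw [hUZ]
          exact ⟨h3, hcZ h1⟩
        · rintro ⟨h1, h2⟩
          refine ⟨h1, fun h3 => h2 ?_⟩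
          rw [hUZ] at h3
          exact h3.1
      rw [this]
      exact isClosed_closure.inter hU.isClosed_compl
    have hne2 : (closure O \ O).Nonempty := by
      rw [nonempty_iff_ne_empty]
      intro h
      rw [diff_eq_empty, hclO] at h
      exact hne (le_antisymm hOM h)
    have hinv2 : Inv (closure O \ O) := by
      intro h hh b hb x hx
      exact ⟨hclinv h hh b hb x hx.1, fun h' => hx.2 ((hOinv h hh b hb x).1 h')⟩
    have hle : closure O \ O ⊆ M := by
      rw [← hclO]; exact diff_subset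
    have := hM.2 ⟨hcl2, hne2, hinv2⟩ hle
    exact (this hu).2 huO
  -- Baire
  have hLC : LocallyCompactSpace M := hMcl.locallyCompactSpace
  have hBaire : BaireSpace M := inferInstance
  have hMne : Nonempty M := ⟨⟨u, hu⟩⟩
  let φ : E → X := fun e => f e * u * g e
  have hφ : Continuous φ := by fun_prop
  let D : ℕ → Set X := fun j => φ '' (compactCovering E j)
  have hD : ∀ j, IsCompact (D j) := fun j => (isCompact_compactCovering E j).image hφ
  have hcov : (⋃ j, (Subtype.val ⁻¹' (D j) : Set M)) = univ := by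
    rw [eq_univ_iff_forall]
    rintro ⟨x, hx⟩
    have hxO : x ∈ O := by rw [hOcl]; exact hx
    obtain ⟨h, hh, b, hb, rfl⟩ := hxO
    obtain ⟨e, he1, he2⟩ := hsurj h hh b hb
    have := iUnion_compactCovering E
    obtain ⟨j, hj⟩ := mem_iUnion.1 (this ▸ mem_univ e)
    rw [mem_iUnion]
    exact ⟨j, e, hj, by simp [φ, he1, he2]⟩
  obtain ⟨j, hj⟩ := nonempty_interior_of_iUnion_of_closed
    (fun j => (hD j).isClosed.preimage continuous_subtype_val) hcov
  obtain ⟨⟨x₀, hx₀M⟩, hx₀⟩ := hj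
  obtain ⟨U, hU, hUeq⟩ := isOpen_induced_iff.1 (isOpen_interior (s := (Subtype.val ⁻¹' (D j) : Set M)))
  have hx₀U : x₀ ∈ U := by
    have : (⟨x₀, hx₀M⟩ : M) ∈ (Subtype.val ⁻¹' U : Set M) := by rw [hUeq]; exact hx₀
    exact this
  have hUD : ∀ x ∈ M, x ∈ U → x ∈ D j := by
    intro x hx hxU
    have : (⟨x, hx⟩ : M) ∈ interior (Subtype.val ⁻¹' (D j) : Set M) := by
      rw [← hUeq]; exact hxU
    have h3 : (⟨x, hx⟩ : M) ∈ (Subtype.val ⁻¹' (D j) : Set M) := interior_subset this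
    exact h3
  -- compactness
  have hMK : IsCompact (M ∩ K) := hK.inter_left hMcl
  let V : X × X → Set X := fun p => {x | p.1⁻¹ * x * p.2⁻¹ ∈ U}
  obtain ⟨t, ht⟩ := hMK.elim_finite_subcover (ι := H × B)
    (fun p => {x | (p.1 : X)⁻¹ * x * (p.2 : X)⁻¹ ∈ U})
    (fun p => hU.preimage (hcont _ _)) (by
      intro x hx
      have hxO : x ∈ O := by rw [hOcl]; exact hx.1
      have hx₀O : x₀ ∈ O := by rw [hOcl]; exact hx₀M
      obtain ⟨h, hh, b, hb, rfl⟩ := hxO
      obtain ⟨h', hh', b', hb', rfl⟩ := hx₀O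
      rw [mem_iUnion]
      refine ⟨⟨⟨h * h'⁻¹, H.mul_mem hh (H.inv_mem hh')⟩, ⟨b'⁻¹ * b, B.mul_mem (B.inv_mem hb') hb⟩⟩, ?_⟩
      show (h * h'⁻¹)⁻¹ * (h * u * b) * (b'⁻¹ * b)⁻¹ ∈ U
      have : (h * h'⁻¹)⁻¹ * (h * u * b) * (b'⁻¹ * b)⁻¹ = h' * u * b' := by group
      rw [this]
      exact hx₀U)
  refine ⟨u, ⋃ p ∈ t, (fun x => (p.1 : X) * x) '' (f '' (compactCovering E j)), ?_, ?_⟩
  · apply t.isCompact_biUnion
    intro p _
    exact ((isCompact_compactCovering E j).image hf).image (by fun_prop)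
  · intro h hh
    obtain ⟨b, hb, hK'⟩ := hKB (h * u)
    have hxM : h * u * b ∈ M := hMinv h hh b hb u hu
    obtain ⟨p, hp, hpU⟩ : ∃ p ∈ t, (p.1 : X)⁻¹ * (h * u * b) * (p.2 : X)⁻¹ ∈ U := by
      have := ht ⟨hxM, hK'⟩
      simp only [mem_iUnion] at this
      obtain ⟨p, hp, h'⟩ := this
      exact ⟨p, hp, h'⟩
    have hinM : (p.1 : X)⁻¹ * (h * u * b) * (p.2 : X)⁻¹ ∈ M :=
      hMinv _ (H.inv_mem p.1.2) _ (B.inv_mem p.2.2) _ hxM
    obtain ⟨e, he, heq⟩ := hUD _ hinM hpU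
    refine ⟨(p.1 : X) * f e, ?_, H.mul_mem p.1.2 (hfH e), g e * p.2 * b⁻¹,
      B.mul_mem (B.mul_mem (hgB e) p.2.2) (B.inv_mem hb), ?_⟩
    · simp only [mem_iUnion]
      exact ⟨p, hp, f e, ⟨e, he, rfl⟩, rfl⟩
    · have h1 : f e * u * g e = (p.1 : X)⁻¹ * (h * u * b) * (p.2 : X)⁻¹ := heq
      have h2 : (p.1 : X) * f e * u * (g e * p.2 * b⁻¹) = (p.1 : X) * (f e * u * g e) * p.2 * b⁻¹ := by
        group
      rw [h2, h1]
      group

end H462SN
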