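import Mathlib
import Pool.Agent.H462SN.Poly
import Pool.Agent.H462SN.Topo
import Pool.Agent.H462SN.QR
import Pool.Agent.H578R3.SingDefs

/-! Double cosets `H₀ u B₀` in `GL_m × GL_n × GL_n` are locally closed, for `H₀` the group of the
triples `h` such that `act h` lies in the image of an algebraic representation of an algebraic
group and `B₀` the group of upper triangular triples. -/

set_option autoImplicit false

namespace H462SN

open Pool.Agent.H578R3.Sing Matrix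

variable {N m n : ℕ}

/-- upper triangular invertible matrices -/
def UT (k : ℕ) : Subgroup (GL (Fin k) ℂ) where
  carrier := {b | (b : Mat k).BlockTriangular id}
  mul_mem' := fun {a b} ha hb => by
    show ((a * b : GL (Fin k) ℂ) : Mat k).BlockTriangular id
    rw [Units.val_mul]
    exact Matrix.BlockTriangular.mul ha hb
  one_mem' := by
    show ((1 : GL (Fin k) ℂ) : Mat k).BlockTriangular id
    rw [Units.val_one]
    exact Matrix.blockTriangular_one
  inv_mem' := fun {a} ha => by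
    have ha' : (a : Mat k).BlockTriangular id := ha
    have : Invertible (a : Mat k) := ⟨(a⁻¹ : GL (Fin k) ℂ), by simp, by simp⟩
    have h := Matrix.blockTriangular_inv_of_blockTriangular ha'
    rw [← Matrix.coe_units_inv] at h
    exact h

lemma mem_UT {k : ℕ} (b : GL (Fin k) ℂ) : b ∈ UT k ↔ (b : Mat k).BlockTriangular id := Iff.rfl

/-- triples of upper triangular invertible matrices -/
def B0 (m n : ℕ) : Subgroup (HH m n) := (UT m).prod ((UT n).prod (UT n))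

lemma act_one (X : Tup m n) : act (1 : HH m n) X = X := by
  funext i
  simp only [act]
  rw [Finset.sum_eq_single i]
  · simp
  · intro j _ hj
    have : ((1 : HH m n).1 : Mat m) i j = 0 := by
      show ((1 : GL (Fin m) ℂ) : Mat m) i j = 0
      rw [Units.val_one, Matrix.one_apply_ne (Ne.symm hj)]
    rw [this, zero_smul]
  · intro h
    exact absurd (Finset.mem_univ i) h

lemma act_mul (h h' : HH m n) (X : Tup m n) : act (h * h') X = act h (act h' X) := by
  funext i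
  simp only [act]
  have e1 : ∀ j, ((h * h').1 : Mat m) i j = ∑ l, (h.1 : Mat m) i l * (h'.1 : Mat m) l j := by
    intro j
    show ((h.1 * h'.1 : GL (Fin m) ℂ) : Mat m) i j = _
    rw [Units.val_mul, Matrix.mul_apply]
  have e2 : (((h * h').2.2⁻¹ : GL (Fin n) ℂ) : Mat n) =
      ((h'.2.2⁻¹ : GL (Fin n) ℂ) : Mat n) * ((h.2.2⁻¹ : GL (Fin n) ℂ) : Mat n) := by
    show (((h.2.2 * h'.2.2)⁻¹ : GL (Fin n) ℂ) : Mat n) = _
    rw [_root_.mul_inv_rev, Units.val_mul]
  have e3 : ((h * h').2.1 : Mat n) = (h.2.1 : Mat n) * (h'.2.1 : Mat n) := by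
    show ((h.2.1 * h'.2.1 : GL (Fin n) ℂ) : Mat n) = _
    rw [Units.val_mul]
  simp only [e1, e2, e3, Finset.mul_sum, Finset.sum_mul, Finset.sum_smul, Finset.smul_sum]
  rw [Finset.sum_comm]
  refine Finset.sum_congr rfl fun l _ => Finset.sum_congr rfl fun j _ => ?_
  rw [Matrix.mul_smul, Matrix.smul_mul, smul_smul]
  simp only [Matrix.mul_assoc]

variable {G : Subgroup (GL (Fin N) ℂ)} (ρ : G →* (Tup m n ≃ₗ[ℂ] Tup m n))

/-- triples whose action is in the image of the representation -/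
def H0 : Subgroup (HH m n) where
  carrier := {h | ∃ g : G, ∀ X, ρ g X = act h X}
  mul_mem' := by
    rintro a b ⟨g, hg⟩ ⟨g', hg'⟩
    refine ⟨g * g', fun X => ?_⟩
    rw [map_mul, act_mul, ← hg', ← hg]
    rfl
  one_mem' := ⟨1, fun X => by rw [map_one, act_one]; rfl⟩
  inv_mem' := by
    rintro a ⟨g, hg⟩
    refine ⟨g⁻¹, fun X => ?_⟩
    apply (ρ g).injective
    rw [hg (act a⁻¹ X), ← act_mul, mul_inv_cancel, act_one, map_inv]
    show (ρ g * (ρ g)⁻¹) X = X
    rw [mul_inv_cancel]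
    rfl

lemma mem_H0 (h : HH m n) : h ∈ H0 ρ ↔ ∃ g : G, ∀ X, ρ g X = act h X := Iff.rfl

/-- coordinates of a triple of matrices -/
abbrev Ti (m n : ℕ) : Type := (Fin m × Fin m) ⊕ (Fin n × Fin n) ⊕ (Fin n × Fin n)

/-- coordinates on the group `Γ × B₀` -/
abbrev Si (N m n : ℕ) : Type :=
  Option (Fin N × Fin N) ⊕ (Fin 4 × Fin m × Fin m) ⊕ (Fin 8 × Fin n × Fin n)

def tri (A : Mat m) (B C : Mat n) : Ti m n → ℂ
  | Sum.inl p => A p.1 p.2
  | Sum.inr (Sum.inl p) => B p.1 p.2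
  | Sum.inr (Sum.inr p) => C p.1 p.2

def ka (h : HH m n) : Ti m n → ℂ := tri (h.1 : Mat m) (h.2.1 : Mat n) (h.2.2 : Mat n)

lemma tri_inj {A A' : Mat m} {B C B' C' : Mat n} (h : tri A B C = tri A' B' C') :
    A = A' ∧ B = B' ∧ C = C' := by
  refine ⟨?_, ?_, ?_⟩
  · ext i j; exact congrFun h (Sum.inl (i, j))
  · ext i j; exact congrFun h (Sum.inr (Sum.inl (i, j)))
  · ext i j; exact congrFun h (Sum.inr (Sum.inr (i, j)))

lemma ka_inj {h h' : HH m n} (e : ka h = ka h') : h = h' := by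
  obtain ⟨e1, e2, e3⟩ := tri_inj e
  exact Prod.ext (Units.ext e1) (Prod.ext (Units.ext e2) (Units.ext e3))

lemma ka_continuous : Continuous (ka : HH m n → (Ti m n → ℂ)) := by
  refine continuous_pi fun t => ?_
  rcases t with p | p | p
  · show Continuous fun h : HH m n => (h.1 : Mat m) p.1 p.2
    exact (Units.continuous_val.comp continuous_fst).matrix_elem p.1 p.2
  · show Continuous fun h : HH m n => (h.2.1 : Mat n) p.1 p.2
    exact (Units.continuous_val.comp (continuous_fst.comp continuous_snd)).matrix_elem p.1 p.2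
  · show Continuous fun h : HH m n => (h.2.2 : Mat n) p.1 p.2
    exact (Units.continuous_val.comp (continuous_snd.comp continuous_snd)).matrix_elem p.1 p.2

def gm (x : Si N m n → ℂ) : Mat N := Matrix.of fun i j => x (Sum.inl (some (i, j)))
def dl (x : Si N m n → ℂ) : ℂ := x (Sum.inl none)
def mm (a : Fin 4) (x : Si N m n → ℂ) : Mat m := Matrix.of fun i j => x (Sum.inr (Sum.inl (a, i, j)))
def nn (a : Fin 8) (x : Si N m n → ℂ) : Mat n := Matrix.of fun i j => x (Sum.inr (Sum.inr (a, i, j)))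

lemma PF_gm (i j : Fin N) : PF (fun x : Si N m n → ℂ => gm x i j) := PF.coord _
lemma PF_dl : PF (fun x : Si N m n → ℂ => dl x) := PF.coord _
lemma PF_mm (a : Fin 4) (i j : Fin m) : PF (fun x : Si N m n → ℂ => mm a x i j) := PF.coord _
lemma PF_nn (a : Fin 8) (i j : Fin n) : PF (fun x : Si N m n → ℂ => nn a x i j) := PF.coord _

lemma IsAlg.and {σ : Type} {P Q : (σ → ℂ) → Prop} (hP : IsAlg {x | P x}) (hQ : IsAlg {x | Q x}) :
    IsAlg {x | P x ∧ Q x} := IsAlg.inter hP hQ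

lemma alg_one {σ : Type} {k : ℕ} {A B : (σ → ℂ) → Mat k} (hA : ∀ i j, PF (fun x => A x i j))
    (hB : ∀ i j, PF (fun x => B x i j)) : IsAlg {x | A x * B x = 1} := by
  refine IsAlg.of_PF (ι := Fin k × Fin k) (fun p x => (A x * B x) p.1 p.2 - (1 : Mat k) p.1 p.2)
    (fun p => (PF.mmul hA hB _ _).sub (PF.const _)) fun x => ?_
  constructor
  · intro h p
    have h' : A x * B x = 1 := h
    rw [h', sub_self]
  · intro h
    show A x * B x = 1
    ext i j
    exact sub_eq_zero.1 (h (i, j))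

lemma alg_tri {σ : Type} {k : ℕ} {A : (σ → ℂ) → Mat k} (hA : ∀ i j, PF (fun x => A x i j)) :
    IsAlg {x | ∀ i j, j < i → A x i j = 0} := by
  refine IsAlg.of_PF (ι := {p : Fin k × Fin k // p.2 < p.1}) (fun p x => A x p.1.1 p.1.2)
    (fun p => hA _ _) fun x => ?_
  constructor
  · intro h p
    exact h _ _ p.2
  · intro h i j hij
    exact h ⟨(i, j), hij⟩

/-- the algebraic set `Γ × B₀` -/
def SS (T : Set (MvPolynomial (Fin N × Fin N) ℂ))
    (p : Tup m n → Fin m → Fin n → Fin n → MvPolynomial (Fin N × Fin N) ℂ)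
    (d : Tup m n → Fin m → Fin n → Fin n → ℕ) : Set (Si N m n → ℂ) :=
  {x | dl x * (gm x).det = 1 ∧
    (∀ q ∈ T, MvPolynomial.eval (fun ij : Fin N × Fin N => gm x ij.1 ij.2) q = 0) ∧
    mm 0 x * mm 1 x = 1 ∧ mm 2 x * mm 3 x = 1 ∧ nn 0 x * nn 1 x = 1 ∧ nn 2 x * nn 3 x = 1 ∧
    nn 4 x * nn 5 x = 1 ∧ nn 6 x * nn 7 x = 1 ∧
    (∀ i j, j < i → mm 2 x i j = 0) ∧ (∀ i j, j < i → nn 4 x i j = 0) ∧
    (∀ i j, j < i → nn 6 x i j = 0) ∧
    ∀ q : Tup m n × Fin m × Fin n × Fin n,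
      (∑ l, mm 0 x q.2.1 l • (nn 0 x * q.1 l * nn 3 x)) q.2.2.1 q.2.2.2 *
        (gm x).det ^ d q.1 q.2.1 q.2.2.1 q.2.2.2 =
      MvPolynomial.eval (fun ij : Fin N × Fin N => gm x ij.1 ij.2) (p q.1 q.2.1 q.2.2.1 q.2.2.2)}

lemma SS_alg (T : Set (MvPolynomial (Fin N × Fin N) ℂ))
    (p : Tup m n → Fin m → Fin n → Fin n → MvPolynomial (Fin N × Fin N) ℂ)
    (d : Tup m n → Fin m → Fin n → Fin n → ℕ) : IsAlg (SS T p d) := by
  unfold SS
  refine IsAlg.and ?_ (IsAlg.and ?_ (IsAlg.and ?_ (IsAlg.and ?_ (IsAlg.and ?_ (IsAlg.and ?_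
    (IsAlg.and ?_ (IsAlg.and ?_ (IsAlg.and ?_ (IsAlg.and ?_ (IsAlg.and ?_ ?_))))))))))
  · exact IsAlg.of_PF (ι := Unit) (fun _ x => dl x * (gm x).det - 1)
      (fun _ => (PF_dl.mul (PF.det PF_gm)).sub (PF.const _)) fun x => by
        simp [sub_eq_zero]
  · exact IsAlg.of_PF (ι := T) (fun q x => MvPolynomial.eval (fun ij => gm x ij.1 ij.2) q.1)
      (fun q => PF.evalp _ fun t => PF_gm _ _) fun x => by
        simp
  · exact alg_one (PF_mm 0) (PF_mm 1)
  · exact alg_one (PF_mm 2) (PF_mm 3)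
  · exact alg_one (PF_nn 0) (PF_nn 1)
  · exact alg_one (PF_nn 2) (PF_nn 3)
  · exact alg_one (PF_nn 4) (PF_nn 5)
  · exact alg_one (PF_nn 6) (PF_nn 7)
  · exact alg_tri (PF_mm 2)
  · exact alg_tri (PF_nn 4)
  · exact alg_tri (PF_nn 6)
  · refine IsAlg.of_PF (ι := Tup m n × Fin m × Fin n × Fin n)
      (fun q x => (∑ l, mm 0 x q.2.1 l • (nn 0 x * q.1 l * nn 3 x)) q.2.2.1 q.2.2.2 *
        (gm x).det ^ d q.1 q.2.1 q.2.2.1 q.2.2.2 -
      MvPolynomial.eval (fun ij : Fin N × Fin N => gm x ij.1 ij.2) (p q.1 q.2.1 q.2.2.1 q.2.2.2))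
      (fun q => PF.sub (PF.mul ?_ (PF.pow (PF.det PF_gm) _)) (PF.evalp _ fun t => PF_gm _ _)) ?_
    · refine PF.congr (PF.sum Finset.univ fun l => (PF_mm (N := N) (n := n) 0 q.2.1 l).mul
        (PF.mmul (PF.mmul (PF_nn 0) (M' := fun _ => q.1 l) (fun i j => PF.const _)) (PF_nn 3)
          q.2.2.1 q.2.2.2)) fun x => ?_
      rw [Matrix.sum_apply]
      simp only [Matrix.smul_apply, smul_eq_mul]
    · intro x
      simp only [sub_eq_zero]
      rfl

lemma SS_mm {T : Set (MvPolynomial (Fin N × Fin N) ℂ)}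
    {p : Tup m n → Fin m → Fin n → Fin n → MvPolynomial (Fin N × Fin N) ℂ}
    {d : Tup m n → Fin m → Fin n → Fin n → ℕ} {x : Si N m n → ℂ} (hx : x ∈ SS T p d) :
    mm 0 x * mm 1 x = 1 ∧ mm 2 x * mm 3 x = 1 ∧ nn 0 x * nn 1 x = 1 ∧ nn 2 x * nn 3 x = 1 ∧
    nn 4 x * nn 5 x = 1 ∧ nn 6 x * nn 7 x = 1 :=
  ⟨hx.2.2.1, hx.2.2.2.1, hx.2.2.2.2.1, hx.2.2.2.2.2.1, hx.2.2.2.2.2.2.1, hx.2.2.2.2.2.2.2.1⟩

/-- a unit from a matrix and its inverse -/
def mkU {k : ℕ} (A B : Mat k) (h : A * B = 1) : GL (Fin k) ℂ := ⟨A, B, h, mul_eq_one_comm.1 h⟩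

section

variable (T : Set (MvPolynomial (Fin N × Fin N) ℂ))
    (p : Tup m n → Fin m → Fin n → Fin n → MvPolynomial (Fin N × Fin N) ℂ)
    (d : Tup m n → Fin m → Fin n → Fin n → ℕ)

def hOf (x : SS T p d) : HH m n :=
  (mkU (mm 0 x.1) (mm 1 x.1) (SS_mm x.2).1,
    mkU (nn 0 x.1) (nn 1 x.1) (SS_mm x.2).2.2.1, mkU (nn 2 x.1) (nn 3 x.1) (SS_mm x.2).2.2.2.1)

def bOf (x : SS T p d) : HH m n :=
  (mkU (mm 2 x.1) (mm 3 x.1) (SS_mm x.2).2.1,
    mkU (nn 4 x.1) (nn 5 x.1) (SS_mm x.2).2.2.2.2.1, mkU (nn 6 x.1) (nn 7 x.1) (SS_mm x.2).2.2.2.2.2)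

lemma cont_mm (a : Fin 4) : Continuous (fun x : SS T p d => mm a x.1) := by
  refine continuous_matrix fun i j => ?_
  show Continuous fun x : SS T p d => x.1 (Sum.inr (Sum.inl (a, i, j)))
  exact (continuous_apply (Sum.inr (Sum.inl (a, i, j)) : Si N m n)).comp continuous_subtype_val

lemma cont_nn (a : Fin 8) : Continuous (fun x : SS T p d => nn a x.1) := by
  refine continuous_matrix fun i j => ?_
  show Continuous fun x : SS T p d => x.1 (Sum.inr (Sum.inr (a, i, j)))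
  exact (continuous_apply (Sum.inr (Sum.inr (a, i, j)) : Si N m n)).comp continuous_subtype_val

lemma cont_hOf : Continuous (hOf T p d) := by
  refine Continuous.prodMk (Units.continuous_iff.2 ⟨cont_mm T p d 0, cont_mm T p d 1⟩)
    (Continuous.prodMk (Units.continuous_iff.2 ⟨cont_nn T p d 0, cont_nn T p d 1⟩)
      (Units.continuous_iff.2 ⟨cont_nn T p d 2, cont_nn T p d 3⟩))

lemma cont_bOf : Continuous (bOf T p d) := by
  refine Continuous.prodMk (Units.continuous_iff.2 ⟨cont_mm T p d 2, cont_mm T p d 3⟩)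
    (Continuous.prodMk (Units.continuous_iff.2 ⟨cont_nn T p d 4, cont_nn T p d 5⟩)
      (Units.continuous_iff.2 ⟨cont_nn T p d 6, cont_nn T p d 7⟩))

lemma bOf_mem (x : SS T p d) : bOf T p d x ∈ B0 m n := by
  obtain ⟨x, hx⟩ := x
  have h := hx.2.2.2.2.2.2.2.2
  refine ⟨?_, ?_, ?_⟩
  · intro i j hij
    exact h.1 i j hij
  · intro i j hij
    exact h.2.1 i j hij
  · intro i j hij
    exact h.2.2.1 i j hij

end

end H462SN
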