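import Mathlib
import Pool.Agent.H462SN.Coset

/-! Iwasawa type decomposition of algebraic groups acting on tuples of matrices. -/

set_option autoImplicit false

namespace H462SN

open Pool.Agent.H578R3.Sing Matrix

variable {N m n : ℕ} {G : Subgroup (GL (Fin N) ℂ)} (ρ : G →* (Tup m n ≃ₗ[ℂ] Tup m n))

section

variable (T : Set (MvPolynomial (Fin N × Fin N) ℂ))
    (p : Tup m n → Fin m → Fin n → Fin n → MvPolynomial (Fin N × Fin N) ℂ)
    (d : Tup m n → Fin m → Fin n → Fin n → ℕ)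

lemma hOf_mem
    (hT : ∀ g : GL (Fin N) ℂ, g ∈ G ↔ ∀ q ∈ T, MvPolynomial.eval (fun ij => g ij.1 ij.2) q = 0)
    (hp : ∀ X i j k, ∀ g : G, ρ g X i j k * ((g : GL (Fin N) ℂ) : Mat N).det ^ d X i j k =
      MvPolynomial.eval (fun ij => (g : GL (Fin N) ℂ) ij.1 ij.2) (p X i j k))
    (x : SS T p d) : hOf T p d x ∈ H0 ρ := by
  obtain ⟨x, hx⟩ := x
  obtain ⟨h1, h2, h3⟩ := hx
  have hdet : (gm x).det ≠ 0 := right_ne_zero_of_mul (by rw [h1]; exact one_ne_zero)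
  let g : GL (Fin N) ℂ := Matrix.GeneralLinearGroup.mkOfDetNeZero (gm x) hdet
  have hg : (g : Mat N) = gm x := rfl
  have hgG : g ∈ G := (hT g).2 h2
  refine ⟨⟨g, hgG⟩, fun X => ?_⟩
  funext i
  ext j k
  have e1 := hp X i j k ⟨g, hgG⟩
  have e2 := h3.2.2.2.2.2.2.2.2.2 (X, i, j, k)
  have e3 : ρ ⟨g, hgG⟩ X i j k * (gm x).det ^ d X i j k =
      (∑ l, mm 0 x i l • (nn 0 x * X l * nn 3 x)) j k * (gm x).det ^ d X i j k := by
    rw [e2]
    exact e1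
  exact mul_right_cancel₀ (pow_ne_zero _ hdet) e3

/-- the point of the algebraic set given by group elements -/
noncomputable def pt (g : GL (Fin N) ℂ) (h b : HH m n) : Si N m n → ℂ
  | Sum.inl none => ((g : Mat N).det)⁻¹
  | Sum.inl (some q) => (g : Mat N) q.1 q.2
  | Sum.inr (Sum.inl (a, i, j)) =>
      (![(h.1 : Mat m), ((h.1⁻¹ : GL (Fin m) ℂ) : Mat m), (b.1 : Mat m),
        ((b.1⁻¹ : GL (Fin m) ℂ) : Mat m)] a) i j
  | Sum.inr (Sum.inr (a, i, j)) =>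
      (![(h.2.1 : Mat n), ((h.2.1⁻¹ : GL (Fin n) ℂ) : Mat n), (h.2.2 : Mat n),
        ((h.2.2⁻¹ : GL (Fin n) ℂ) : Mat n), (b.2.1 : Mat n), ((b.2.1⁻¹ : GL (Fin n) ℂ) : Mat n),
        (b.2.2 : Mat n), ((b.2.2⁻¹ : GL (Fin n) ℂ) : Mat n)] a) i j

lemma pt_mem
    (hT : ∀ g : GL (Fin N) ℂ, g ∈ G ↔ ∀ q ∈ T, MvPolynomial.eval (fun ij => g ij.1 ij.2) q = 0)
    (hp : ∀ X i j k, ∀ g : G, ρ g X i j k * ((g : GL (Fin N) ℂ) : Mat N).det ^ d X i j k =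
      MvPolynomial.eval (fun ij => (g : GL (Fin N) ℂ) ij.1 ij.2) (p X i j k))
    (g : G) (h b : HH m n) (hgh : ∀ X, ρ g X = act h X) (hb : b ∈ B0 m n) :
    pt (g : GL (Fin N) ℂ) h b ∈ SS T p d := by
  have hdet : ((g : GL (Fin N) ℂ) : Mat N).det ≠ 0 := by
    have := (Matrix.isUnit_iff_isUnit_det _).1 (g : GL (Fin N) ℂ).isUnit
    exact this.ne_zero
  have hgm : gm (pt (g : GL (Fin N) ℂ) h b) = ((g : GL (Fin N) ℂ) : Mat N) := rfl
  refine ⟨?_, ?_, ?_, ?_, ?_, ?_, ?_, ?_, ?_, ?_, ?_, ?_⟩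
  · rw [hgm]
    exact inv_mul_cancel₀ hdet
  · exact (hT _).1 g.2
  · show (h.1 : Mat m) * ((h.1⁻¹ : GL (Fin m) ℂ) : Mat m) = 1
    exact Units.mul_inv _
  · show (b.1 : Mat m) * ((b.1⁻¹ : GL (Fin m) ℂ) : Mat m) = 1
    exact Units.mul_inv _
  · show (h.2.1 : Mat n) * ((h.2.1⁻¹ : GL (Fin n) ℂ) : Mat n) = 1
    exact Units.mul_inv _
  · show (h.2.2 : Mat n) * ((h.2.2⁻¹ : GL (Fin n) ℂ) : Mat n) = 1
    exact Units.mul_inv _
  · show (b.2.1 : Mat n) * ((b.2.1⁻¹ : GL (Fin n) ℂ) : Mat n) = 1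
    exact Units.mul_inv _
  · show (b.2.2 : Mat n) * ((b.2.2⁻¹ : GL (Fin n) ℂ) : Mat n) = 1
    exact Units.mul_inv _
  · intro i j hij
    exact hb.1 hij
  · intro i j hij
    exact hb.2.1 hij
  · intro i j hij
    exact hb.2.2 hij
  · rintro ⟨X, i, j, k⟩
    have e1 := hp X i j k g
    rw [hgm]
    show (act h X) i j k * _ = _
    rw [← hgh]
    exact e1

/-- the polynomial map whose image is the double coset of `u` -/
def Phi (u : HH m n) (x : Si N m n → ℂ) : Ti m n → ℂ :=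
  tri (mm 0 x * (u.1 : Mat m) * mm 2 x) (nn 0 x * (u.2.1 : Mat n) * nn 4 x)
    (nn 2 x * (u.2.2 : Mat n) * nn 6 x)

lemma PF_Phi (u : HH m n) (t : Ti m n) : PF (fun x : Si N m n → ℂ => Phi u x t) := by
  rcases t with q | q | q
  · exact PF.mmul (PF.mmul (PF_mm 0) (M' := fun _ => (u.1 : Mat m)) fun i j => PF.const _)
      (PF_mm 2) q.1 q.2
  · exact PF.mmul (PF.mmul (PF_nn 0) (M' := fun _ => (u.2.1 : Mat n)) fun i j => PF.const _)
      (PF_nn 4) q.1 q.2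
  · exact PF.mmul (PF.mmul (PF_nn 2) (M' := fun _ => (u.2.2 : Mat n)) fun i j => PF.const _)
      (PF_nn 6) q.1 q.2

lemma Phi_eq (u : HH m n) (x : SS T p d) :
    Phi u x.1 = ka (hOf T p d x * u * bOf T p d x) := rfl

lemma Phi_pt (u : HH m n) (g : GL (Fin N) ℂ) (h b : HH m n) :
    Phi u (pt g h b) = ka (h * u * b) := rfl

/-- translation in coordinates -/
def Tr (h b : HH m n) (y : Ti m n → ℂ) : Ti m n → ℂ :=
  tri ((h.1 : Mat m) * Matrix.of (fun i j => y (Sum.inl (i, j))) * (b.1 : Mat m))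
    ((h.2.1 : Mat n) * Matrix.of (fun i j => y (Sum.inr (Sum.inl (i, j)))) * (b.2.1 : Mat n))
    ((h.2.2 : Mat n) * Matrix.of (fun i j => y (Sum.inr (Sum.inr (i, j)))) * (b.2.2 : Mat n))

lemma Tr_ka (h b x : HH m n) : Tr h b (ka x) = ka (h * x * b) := rfl

lemma PF_Tr (h b : HH m n) (t : Ti m n) : PF (fun y : Ti m n → ℂ => Tr h b y t) := by
  rcases t with q | q | q
  · exact PF.mmul (PF.mmul (M := fun _ => (h.1 : Mat m)) (fun i j => PF.const _)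
      (M' := fun y => Matrix.of (fun i j => y (Sum.inl (i, j)))) (fun i j => PF.coord _))
      (M' := fun _ => (b.1 : Mat m)) (fun i j => PF.const _) q.1 q.2
  · exact PF.mmul (PF.mmul (M := fun _ => (h.2.1 : Mat n)) (fun i j => PF.const _)
      (M' := fun y => Matrix.of (fun i j => y (Sum.inr (Sum.inl (i, j))))) (fun i j => PF.coord _))
      (M' := fun _ => (b.2.1 : Mat n)) (fun i j => PF.const _) q.1 q.2
  · exact PF.mmul (PF.mmul (M := fun _ => (h.2.2 : Mat n)) (fun i j => PF.const _)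
      (M' := fun y => Matrix.of (fun i j => y (Sum.inr (Sum.inr (i, j))))) (fun i j => PF.coord _))
      (M' := fun _ => (b.2.2 : Mat n)) (fun i j => PF.const _) q.1 q.2

end

/-- double cosets are locally closed -/
theorem loc_closed (hG : IsZariskiClosed G) (hρ : IsRegular ρ) (u : HH m n) :
    IsLocallyClosed {x : HH m n | ∃ h ∈ H0 ρ, ∃ b ∈ B0 m n, x = h * u * b} := by
  obtain ⟨T, hT⟩ := hG
  choose p d hp using hρ
  set O : Set (HH m n) := {x : HH m n | ∃ h ∈ H0 ρ, ∃ b ∈ B0 m n, x = h * u * b} with hO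
  have hOinv : ∀ h ∈ H0 ρ, ∀ b ∈ B0 m n, ∀ x, h * x * b ∈ O ↔ x ∈ O := by
    intro h hh b hb x
    constructor
    · rintro ⟨h', hh', b', hb', he⟩
      refine ⟨h⁻¹ * h', (H0 ρ).mul_mem ((H0 ρ).inv_mem hh) hh', b' * b⁻¹,
        (B0 m n).mul_mem hb' ((B0 m n).inv_mem hb), ?_⟩
      have : x = h⁻¹ * (h * x * b) * b⁻¹ := by group
      rw [this, he]
      group
    · rintro ⟨h', hh', b', hb', rfl⟩
      exact ⟨h * h', (H0 ρ).mul_mem hh hh', b' * b, (B0 m n).mul_mem hb' hb, by group⟩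
  have hne : (SS T p d).Nonempty :=
    ⟨_, pt_mem ρ T p d hT hp 1 1 1 (fun X => by rw [map_one, act_one]; rfl) (B0 m n).one_mem⟩
  obtain ⟨F, hFPF, ⟨x₀, hx₀, hFx₀⟩, hF⟩ := chevPF (SS_alg T p d) hne (Phi u) (PF_Phi u)
  -- the Zariski closure
  let Z : Set (Ti m n → ℂ) := {y | ∀ f, PF f → (∀ x ∈ SS T p d, f (Phi u x) = 0) → f y = 0}
  have hZcl : IsClosed Z := by
    have : Z = ⋂ f : {f : (Ti m n → ℂ) → ℂ // PF f ∧ ∀ x ∈ SS T p d, f (Phi u x) = 0},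
        {y | f.1 y = 0} := by
      ext y
      simp only [Set.mem_iInter]
      constructor
      · intro h f
        exact h f.1 f.2.1 f.2.2
      · intro h f hf hf'
        exact h ⟨f, hf, hf'⟩
    rw [this]
    exact isClosed_iInter fun f => isClosed_eq f.2.1.continuous continuous_const
  -- points of the orbit
  have hPO : ∀ x ∈ SS T p d, ∃ o ∈ O, Phi u x = ka o := by
    intro x hx
    exact ⟨_, ⟨_, hOf_mem ρ T p d hT hp ⟨x, hx⟩, _, bOf_mem T p d ⟨x, hx⟩, rfl⟩,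
      Phi_eq T p d u ⟨x, hx⟩⟩
  have hOP : ∀ o ∈ O, ∃ x ∈ SS T p d, Phi u x = ka o := by
    rintro o ⟨h, ⟨g, hg⟩, b, hb, rfl⟩
    exact ⟨_, pt_mem ρ T p d hT hp g h b hg hb, Phi_pt u _ h b⟩
  have hOZ : ∀ o ∈ O, ka o ∈ Z := by
    intro o ho f hf hf'
    obtain ⟨x, hx, he⟩ := hOP o ho
    rw [← he]
    exact hf' x hx
  have hZinv : ∀ h ∈ H0 ρ, ∀ b ∈ B0 m n, ∀ x : HH m n, ka x ∈ Z → ka (h * x * b) ∈ Z := by
    intro h hh b hb x hx f hf hf'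
    rw [← Tr_ka]
    refine hx (fun y => f (Tr h b y)) (PF.comp hf (PF_Tr h b)) ?_
    intro x' hx'
    obtain ⟨o, ho, he⟩ := hPO x' hx'
    obtain ⟨x'', hx'', he'⟩ := hOP _ ((hOinv h hh b hb o).2 ho)
    show f (Tr h b (Phi u x')) = 0
    rw [he, Tr_ka, ← he']
    exact hf' x'' hx''
  obtain ⟨o₀, ho₀, he₀⟩ := hPO x₀ hx₀
  rw [he₀] at hFx₀
  let Ω : Set (HH m n) := ⋃ q : (H0 ρ) × (B0 m n), {x | F (ka ((q.1 : HH m n) * x * q.2)) ≠ 0}
  have hΩ : IsOpen Ω := by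
    refine isOpen_iUnion fun q => ?_
    have hc : Continuous fun x : HH m n => F (ka ((q.1 : HH m n) * x * q.2)) :=
      hFPF.continuous.comp (ka_continuous.comp (by fun_prop))
    exact isOpen_ne.preimage hc
  refine ⟨Ω, ka ⁻¹' Z, hΩ, hZcl.preimage ka_continuous, ?_⟩
  ext x
  constructor
  · intro hx
    refine ⟨?_, hOZ x hx⟩
    obtain ⟨h, hh, b, hb, rfl⟩ := hx
    obtain ⟨h', hh', b', hb', rfl⟩ := ho₀
    rw [Set.mem_iUnion]
    refine ⟨⟨⟨h' * h⁻¹, (H0 ρ).mul_mem hh' ((H0 ρ).inv_mem hh)⟩,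
      ⟨b⁻¹ * b', (B0 m n).mul_mem ((B0 m n).inv_mem hb) hb'⟩⟩, ?_⟩
    show F (ka (h' * h⁻¹ * (h * u * b) * (b⁻¹ * b'))) ≠ 0
    have : h' * h⁻¹ * (h * u * b) * (b⁻¹ * b') = h' * u * b' := by group
    rw [this]
    exact hFx₀
  · rintro ⟨hx1, hx2⟩
    rw [Set.mem_iUnion] at hx1
    obtain ⟨⟨⟨h, hh⟩, ⟨b, hb⟩⟩, hx3⟩ := hx1
    have hx4 : F (ka (h * x * b)) ≠ 0 := hx3
    have hx5 : ka (h * x * b) ∈ Z := hZinv h hh b hb x hx2
    obtain ⟨x', hx', he⟩ := hF _ hx5 hx4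
    obtain ⟨o, ho, he'⟩ := hPO x' hx'
    rw [he] at he'
    have := ka_inj he'
    rw [← hOinv h hh b hb x, this]
    exact ho

instance locallyCompact_mat (k : ℕ) : LocallyCompactSpace (Mat k) :=
  inferInstanceAs (LocallyCompactSpace (Fin k → Fin k → ℂ))

theorem iwasawa (hG : IsZariskiClosed G) (hρ : IsRegular ρ) :
    ∃ (u : HH m n) (C : Set (HH m n)), IsCompact C ∧
      ∀ h ∈ H0 ρ, ∃ c ∈ C, c ∈ H0 ρ ∧ ∃ b ∈ B0 m n, h * u = c * u * b := by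
  have hloc := loc_closed ρ hG hρ
  obtain ⟨T, hT⟩ := hG
  choose p d hp using hρ
  have hcl : IsClosed (SS T p d) := (SS_alg T p d).isClosed
  have hsig : SigmaCompactSpace (SS T p d) := hcl.isClosedEmbedding_subtypeVal.sigmaCompactSpace
  refine exists_closed_coset (H0 ρ) (B0 m n) (KK m ×ˢ (KK n ×ˢ KK n))
    ((isCompact_KK m).prod ((isCompact_KK n).prod (isCompact_KK n))) ?_ (SS T p d)
    (hOf T p d) (bOf T p d) (cont_hOf T p d) (cont_bOf T p d) (hOf_mem ρ T p d hT hp)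
    (bOf_mem T p d) ?_ hloc
  · intro x
    obtain ⟨b1, hb1, h1⟩ := qr m x.1
    obtain ⟨b2, hb2, h2⟩ := qr n x.2.1
    obtain ⟨b3, hb3, h3⟩ := qr n x.2.2
    exact ⟨(b1, b2, b3), ⟨hb1, hb2, hb3⟩, h1, h2, h3⟩
  · rintro h ⟨g, hg⟩ b hb
    refine ⟨⟨_, pt_mem ρ T p d hT hp g h b hg hb⟩, ?_, ?_⟩
    · exact Prod.ext (Units.ext rfl) (Prod.ext (Units.ext rfl) (Units.ext rfl))
    · exact Prod.ext (Units.ext rfl) (Prod.ext (Units.ext rfl) (Units.ext rfl))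

end H462SN
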