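import Mathlib
import Pool.Agent.H462SN.Iwasawa

/-! Contraction by algebraic groups can be realised by elements that are triangular in a fixed
basis. -/

set_option autoImplicit false

namespace H462SN

open Pool.Agent.H578R3.Sing Matrix

variable {N m n : ℕ} {G : Subgroup (GL (Fin N) ℂ)} (ρ : G →* (Tup m n ≃ₗ[ℂ] Tup m n))

lemma continuous_act : Continuous (fun q : HH m n × Tup m n => act q.1 q.2) := by
  refine continuous_pi fun i => ?_
  show Continuous fun q : HH m n × Tup m n => ∑ j, q.1.1 i j •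
    ((q.1.2.1 : Mat n) * q.2 j * ((q.1.2.2⁻¹ : GL (Fin n) ℂ) : Mat n))
  refine continuous_finset_sum _ fun j _ => ?_
  have h1 : Continuous fun q : HH m n × Tup m n => (q.1.1 : Mat m) i j :=
    (Units.continuous_val.comp (continuous_fst.comp continuous_fst)).matrix_elem i j
  have h2 : Continuous fun q : HH m n × Tup m n => (q.1.2.1 : Mat n) :=
    Units.continuous_val.comp (continuous_fst.comp (continuous_snd.comp continuous_fst))
  have h3 : Continuous fun q : HH m n × Tup m n => ((q.1.2.2⁻¹ : GL (Fin n) ℂ) : Mat n) :=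
    Units.continuous_val.comp (continuous_inv.comp
      (continuous_snd.comp (continuous_snd.comp continuous_fst)))
  have h4 : Continuous fun q : HH m n × Tup m n => q.2 j :=
    (continuous_apply j).comp continuous_snd
  exact h1.smul ((h2.matrix_mul h4).matrix_mul h3)

/-- **Triangularisation of contractions.** -/
theorem exists_triangular (hG : IsZariskiClosed G) (hρ : IsRegular ρ) :
    ∃ u : HH m n, ∀ v : Tup m n,
      (0 : Tup m n) ∈ closure {w | ∃ (g : G) (h : HH m n), (∀ X, ρ g X = act h X) ∧ ρ g v = w} →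
      (0 : Tup m n) ∈ closure {w | ∃ (g : G) (b : HH m n), (b.1 : Mat m).BlockTriangular id ∧
        (b.2.1 : Mat n).BlockTriangular id ∧ (b.2.2 : Mat n).BlockTriangular id ∧
        (∀ X, ρ g X = act (u * b * u⁻¹) X) ∧ ρ g v = w} := by
  obtain ⟨u, C, hC, hu⟩ := iwasawa ρ hG hρ
  refine ⟨u, fun v hv => ?_⟩
  rw [mem_closure_iff] at hv ⊢
  intro U hU h0
  have hcont : Continuous (fun q : HH m n × Tup m n => act q.1⁻¹ q.2) :=
    continuous_act.comp ((continuous_inv.comp continuous_fst).prodMk continuous_snd)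
  have hopen : IsOpen {q : HH m n × Tup m n | act q.1⁻¹ q.2 ∈ U} := hU.preimage hcont
  have hsub : C ×ˢ ({0} : Set (Tup m n)) ⊆ {q : HH m n × Tup m n | act q.1⁻¹ q.2 ∈ U} := by
    rintro ⟨c, w⟩ ⟨_, hw⟩
    have hw' : w = 0 := hw
    subst hw'
    have : act c⁻¹ (0 : Tup m n) = 0 := by
      funext i
      simp [act]
    show act c⁻¹ (0 : Tup m n) ∈ U
    rw [this]
    exact h0
  obtain ⟨U1, U2, hU1, hU2, hCU, h0U, hUU⟩ := generalized_tube_lemma hC isCompact_singleton hopen hsub
  obtain ⟨w, hwU, g, h, hgh, hgw⟩ := hv U2 hU2 (h0U rfl)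
  obtain ⟨c, hcC, ⟨g', hg'⟩, b, hb, hE⟩ := hu h ⟨g, hgh⟩
  have hbe : u * b * u⁻¹ = c⁻¹ * h := by
    have : u * b = c⁻¹ * (h * u) := by rw [hE]; group
    rw [this]
    group
  have hact : ∀ X, ρ (g'⁻¹ * g) X = act (u * b * u⁻¹) X := by
    intro X
    rw [hbe, act_mul, ← hgh]
    apply (ρ g').injective
    rw [hg' (act c⁻¹ (ρ g X)), ← act_mul, mul_inv_cancel, act_one, map_mul, map_inv]
    show (ρ g' * ((ρ g')⁻¹ * ρ g)) X = ρ g X
    rw [mul_inv_cancel_left]
  refine ⟨act c⁻¹ w, hUU (Set.mk_mem_prod (hCU hcC) hwU), g'⁻¹ * g, b, hb.1, hb.2.1, hb.2.2,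
    hact, ?_⟩
  rw [hact, hbe, act_mul, ← hgh, hgw]

end H462SN
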