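import Mathlib
import Pool.Agent.H462SN.Tri
import Pool.Agent.H578R3.SingAsm

/-! The reduction to triangular elements, in the form used by `H578R3`. -/

set_option autoImplicit false

namespace H462SN

open Pool.Agent.H578R3.Sing Matrix

variable {N m n : ℕ} {G : Subgroup (GL (Fin N) ℂ)}

lemma mem_closure_entry {S : Set (Tup m n)} :
    (0 : Tup m n) ∈ closure S ↔ ∀ δ : ℝ, 0 < δ → ∃ w ∈ S, ∀ i j k, ‖w i j k‖ < δ := by
  rw [mem_closure_iff]
  constructor
  · intro h δ hδ
    have hopen : IsOpen {w : Tup m n | ∀ i j k, ‖w i j k‖ < δ} := by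
      have : {w : Tup m n | ∀ i j k, ‖w i j k‖ < δ} =
          ⋂ i, ⋂ j, ⋂ k, {w : Tup m n | ‖w i j k‖ < δ} := by
        ext w
        simp
      rw [this]
      refine isOpen_iInter_of_finite fun i => isOpen_iInter_of_finite fun j =>
        isOpen_iInter_of_finite fun k => ?_
      exact isOpen_lt (((continuous_apply i).matrix_elem j k).norm) continuous_const
    obtain ⟨w, hw, hwS⟩ := h _ hopen (by intro i j k; simpa using hδ)
    exact ⟨w, hwS, hw⟩
  · intro h U hU h0
    -- a box inside `U`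
    let e : (Fin m → Fin n → Fin n → ℂ) → Tup m n := fun f i => Matrix.of (f i)
    have he : Continuous e := continuous_pi fun i => continuous_matrix fun j k => by
      show Continuous fun f : Fin m → Fin n → Fin n → ℂ => f i j k
      fun_prop
    have hU' : IsOpen (e ⁻¹' U) := hU.preimage he
    have h0' : (0 : Fin m → Fin n → Fin n → ℂ) ∈ e ⁻¹' U := h0
    obtain ⟨ε, hε, hball⟩ := Metric.isOpen_iff.1 hU' 0 h0'
    obtain ⟨w, hwS, hw⟩ := h (ε / 2) (by positivity)
    refine ⟨w, ?_, hwS⟩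
    have h1 : (fun i j k => w i j k) ∈ Metric.ball (0 : Fin m → Fin n → Fin n → ℂ) ε := by
      rw [Metric.mem_ball, dist_zero_right]
      refine lt_of_le_of_lt ?_ (half_lt_self hε)
      refine (pi_norm_le_iff_of_nonneg (by positivity)).2 fun i => ?_
      refine (pi_norm_le_iff_of_nonneg (by positivity)).2 fun j => ?_
      refine (pi_norm_le_iff_of_nonneg (by positivity)).2 fun k => ?_
      exact (hw i j k).le
    exact hball h1

theorem reduction (hG : IsZariskiClosed G) (ρ : G →* (Tup m n ≃ₗ[ℂ] Tup m n))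
    (hρ : IsRegular ρ) : Reduction ρ := by
  obtain ⟨u, hu⟩ := exists_triangular ρ hG hρ
  refine ⟨u, fun v hv => ?_⟩
  have h1 := hu v (mem_closure_entry.2 fun δ hδ => by
    obtain ⟨g, h, hgh, hs⟩ := hv δ hδ
    exact ⟨ρ g v, ⟨g, h, hgh, rfl⟩, hs⟩)
  intro δ hδ
  obtain ⟨w, ⟨g, b, hb1, hb2, hb3, hact, rfl⟩, hs⟩ := mem_closure_entry.1 h1 δ hδ
  exact ⟨g, b, ⟨hb1, hb2, hb3⟩, hact, hs⟩

theorem nullCone_ne_SING (hm : 3 ≤ m) (hn : 3 ≤ n) (hG : IsZariskiClosed G)
    (ρ : G →* (Tup m n ≃ₗ[ℂ] Tup m n)) (hρ : IsRegular ρ) : nullCone ρ ≠ SING m n :=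
  nullCone_ne hm hn ρ (reduction hG ρ hρ)

end H462SN
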